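import Pool.Agent.H843.Ex4

/-!
# Germs of sequences of complex numbers
-/

open Filter Cardinal

namespace Pool.Agent.H844.Num

variable {K : Type} [Field K] (l : Ultrafilter ℕ)

lemma germ_sum {ι : Type*} (s : Finset ι) (f : ι → ℕ → K) :
    ((fun i => ∑ j ∈ s, f j i : ℕ → K) : Germ (l : Filter ℕ) K) =
      ∑ j ∈ s, (f j : Germ (l : Filter ℕ) K) := by
  classical
  induction s using Finset.induction_on with
  | empty => rfl
  | insert a s ha ih =>
    rw [Finset.sum_insert ha, ← ih]
    rw [← Germ.coe_add]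
    congr 1
    funext i
    rw [Finset.sum_insert ha]
    rfl

/-- The germs of sequences in an algebraically closed field are an algebraically closed field. -/
theorem isAlgClosed_germ [IsAlgClosed K] : IsAlgClosed (Germ (l : Filter ℕ) K) := by
  classical
  apply IsAlgClosed.of_exists_root
  intro p hp hirr
  set n := p.natDegree with hn
  have hn0 : 0 < n := hirr.natDegree_pos
  have h1 : ∀ j, ∃ a : ℕ → K, (a : Germ (l : Filter ℕ) K) = p.coeff j := by
    intro j
    refine Germ.inductionOn (p.coeff j) fun a => ⟨a, rfl⟩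
  choose a ha using h1
  have h2 : ∀ i, ∃ r : K, r ^ n + ∑ j ∈ Finset.range n, a j i * r ^ j = 0 := by
    intro i
    set q : Polynomial K := Polynomial.X ^ n + ∑ j ∈ Finset.range n,
      Polynomial.C (a j i) * Polynomial.X ^ j with hq
    have hdeg : (∑ j ∈ Finset.range n, Polynomial.C (a j i) * Polynomial.X ^ j).degree <
        (n : WithBot ℕ) := by
      refine Polynomial.mem_degreeLT.1 (Submodule.sum_mem _ fun j hj => ?_)
      refine Polynomial.mem_degreeLT.2 ((Polynomial.degree_C_mul_X_pow_le _ _).trans_lt ?_)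
      exact_mod_cast Finset.mem_range.1 hj
    have hqd : q.degree = n := by
      rw [hq, Polynomial.degree_add_eq_left_of_degree_lt, Polynomial.degree_X_pow]
      rw [Polynomial.degree_X_pow]
      exact hdeg
    obtain ⟨r, hr⟩ := IsAlgClosed.exists_root q (by
      rw [hqd]
      exact_mod_cast hn0.ne')
    refine ⟨r, ?_⟩
    have h3 : q.eval r = 0 := hr
    rw [hq, Polynomial.eval_add, Polynomial.eval_pow, Polynomial.eval_X,
      Polynomial.eval_finsetSum] at h3
    rw [← h3]
    congr 1
    refine Finset.sum_congr rfl fun j _ => ?_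
    rw [Polynomial.eval_mul, Polynomial.eval_C, Polynomial.eval_pow, Polynomial.eval_X]
  choose r hr using h2
  refine ⟨(r : Germ (l : Filter ℕ) K), ?_⟩
  rw [Polynomial.eval_eq_sum_range, Finset.sum_range_succ, hp.coeff_natDegree, one_mul]
  have h4 : ∀ j, p.coeff j * (r : Germ (l : Filter ℕ) K) ^ j =
      ((fun i => a j i * r i ^ j : ℕ → K) : Germ (l : Filter ℕ) K) := by
    intro j
    rw [← ha j]
    rfl
  rw [Finset.sum_congr rfl fun j _ => h4 j, ← germ_sum]
  have h5 : (r : Germ (l : Filter ℕ) K) ^ n = ((fun i => r i ^ n : ℕ → K) : Germ _ K) := rfl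
  rw [h5, ← Germ.coe_add]
  have h6 : ((fun i => ∑ j ∈ Finset.range n, a j i * r i ^ j) + fun i => r i ^ n : ℕ → K) =
      fun _ => 0 := by
    funext i
    change (∑ j ∈ Finset.range n, a j i * r i ^ j) + r i ^ n = 0
    rw [add_comm]
    exact hr i
  rw [h6]
  rfl

omit [Field K] in
lemma mk_germ (hK : #K = 𝔠) : #(Germ (l : Filter ℕ) K) = 𝔠 := by
  apply le_antisymm
  · have h1 : #(Germ (l : Filter ℕ) K) ≤ #(ℕ → K) :=
      mk_le_of_surjective (f := fun a : ℕ → K => (a : Germ (l : Filter ℕ) K))
        (fun x => Germ.inductionOn x fun a => ⟨a, rfl⟩)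
    refine h1.trans ?_
    rw [← power_def, hK, mk_nat, continuum_power_aleph0]
  · rw [← hK]
    exact mk_le_of_injective (f := fun c : K => ((fun _ => c : ℕ → K) : Germ (l : Filter ℕ) K))
      fun c d h => by
        have h2 : ∀ᶠ i in (l : Filter ℕ), c = d := Germ.coe_eq.1 h
        obtain ⟨i, hi⟩ := h2.exists
        exact hi

/-- **The field of germs of sequences of complex numbers is isomorphic to the field of complex
numbers.** -/
theorem nonempty_equiv_germ (hK : Nonempty (ℂ ≃+* K)) :
    Nonempty (ℂ ≃+* Germ (l : Filter ℕ) K) := by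
  obtain ⟨σ⟩ := hK
  have h1 : IsAlgClosed K := IsAlgClosed.of_ringEquiv ℂ K σ
  have h2 : CharZero K := charZero_of_injective_ringHom (f := σ.toRingHom) σ.injective
  have h3 : IsAlgClosed (Germ (l : Filter ℕ) K) := isAlgClosed_germ l
  have h4 : CharZero (Germ (l : Filter ℕ) K) := Pool.Agent.H843.Ex.charZero_germ l
  have h5 : #K = 𝔠 := by
    rw [← mk_complex]
    exact (Cardinal.mk_congr σ.toEquiv).symm
  have h6 := mk_germ l h5
  refine IsAlgClosed.ringEquiv_of_equiv_of_charZero ?_ ?_
  · rw [mk_complex]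
    exact aleph0_lt_continuum
  · rw [← Cardinal.eq, mk_complex, h6]

end Pool.Agent.H844.Num
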