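import Pool.Agent.H843.Ex9
import Pool.Agent.H844.Num.Lim

/-!
# The limit theory along a sequence of varieties is a Weil cohomology theory
-/

open CategoryTheory AlgebraicGeometry Function Filter

universe u v

set_option linter.unusedSectionVars false

namespace Pool.Agent.H844.Num

open Pool.Agent.H843.Ex

open Pool.Agent.H914 Pool.Agent.H914.VarClass Pool.Agent.H914.VarClass.Obj
  Pool.Agent.H914.WeilCohomology Pool.Agent.R908 Pool.Agent.N180.Cf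

variable {k : Type u} [Field k] {𝒱 : VarClass k} {ops : CycleOps 𝒱}
  {W : WeilCohomology.{u, v} ops} {𝒟 : Sys W} {ν : ℕ → 𝒱.Obj} {𝒰 : Ultrafilter ℕ}

variable (𝒟 ν 𝒰)

/-- Pull-back in the limit theory, as a linear map. -/
noncomputable def mapL {X Y : 𝒱.Obj} (f : X ⟶ Y) : HS 𝒟 ν 𝒰 Y →ₗ[KS W 𝒰] HS 𝒟 ν 𝒰 X :=
  opS 𝒟 ν 𝒰 (fun i => Spl.grL (𝒟.D (ν i) Y) (𝒟.D (ν i) X) (W.map f).toLinearMap)

/-- Push-forward in the limit theory. -/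
noncomputable def pushL {X Y : 𝒱.Obj} (f : X ⟶ Y) : HS 𝒟 ν 𝒰 X →ₗ[KS W 𝒰] HS 𝒟 ν 𝒰 Y :=
  opS 𝒟 ν 𝒰 (fun i => Spl.grL (𝒟.D (ν i) X) (𝒟.D (ν i) Y) (W.push f))

/-- The cycle class map of the limit theory. -/
noncomputable def clS (X : 𝒱.Obj) : X.Cycles →+ HS 𝒟 ν 𝒰 X where
  toFun z := mk 𝒟 ν 𝒰 (fun i => (𝒟.D (ν i) X).P 0 (W.cl X z))
  map_zero' := by
    rw [map_zero]
    simp only [map_zero]
    rfl
  map_add' z w := by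
    rw [map_add]
    simp only [map_add]
    rfl

variable {𝒟 ν 𝒰} (h𝒰 : ∀ V, ∀ᶠ i in (𝒰 : Filter ℕ), Dom W (ν i) V)
include h𝒰

lemma mapL_one {X Y : 𝒱.Obj} (f : X ⟶ Y) : mapL 𝒟 ν 𝒰 f 1 = 1 := by
  rw [mk_one, mk_one, mapL, opS_mk]
  apply mk_eq
  filter_upwards [h𝒰 X, h𝒰 Y] with i hX hY
  have h1 := Spl.grL_zero (𝒟.filt_map hX hY f) (𝒟.wt (ν i) Y).one
  rw [(𝒟.wt (ν i) Y).P_one (W.gr_zero Y) (W.one_mem Y)] at h1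
  rw [h1]
  change (𝒟.D (ν i) X).P 0 (W.map f 1) = 1
  rw [map_one (W.map f), (𝒟.wt (ν i) X).P_one (W.gr_zero X) (W.one_mem X)]

lemma mapL_mul {X Y : 𝒱.Obj} (f : X ⟶ Y) (a b : HS 𝒟 ν 𝒰 Y) :
    mapL 𝒟 ν 𝒰 f (a * b) = mapL 𝒟 ν 𝒰 f a * mapL 𝒟 ν 𝒰 f b := by
  induction a using mk_ind with | h a =>
  induction b using mk_ind with | h b =>
  rw [mk_mul, mapL, opS_mk, opS_mk, opS_mk, mk_mul]
  apply mk_eq
  filter_upwards [h𝒰 X, h𝒰 Y] with i hX hY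
  exact Spl.grL_gmul (𝒟.filt_map hX hY f) (𝒟.wt (ν i) Y).mul (𝒟.wt (ν i) X).mul (a i) (b i)

lemma trS_push {X Y : 𝒱.Obj} (f : X ⟶ Y) (a : HS 𝒟 ν 𝒰 X) (b : HS 𝒟 ν 𝒰 Y) :
    trS 𝒟 ν 𝒰 Y (pushL 𝒟 ν 𝒰 f a * b) = trS 𝒟 ν 𝒰 X (a * mapL 𝒟 ν 𝒰 f b) := by
  induction a using mk_ind with | h a =>
  induction b using mk_ind with | h b =>
  rw [pushL, mapL, opS_mk, opS_mk, mk_mul, mk_mul, trS_mk, trS_mk]
  apply germ_eq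
  filter_upwards [h𝒰 X, h𝒰 Y] with i hX hY
  exact Spl.tr_push (𝒟.wt (ν i) X) (𝒟.wt (ν i) Y) (𝒟.filt_map hX hY f) (𝒟.filt_push hX hY f)
    (fun a b => W.tr_push f a b) (a i) (b i)

lemma clS_mul {X : 𝒱.Obj} (z w : X.Cycles) :
    clS 𝒟 ν 𝒰 X (ops.mul z w) = clS 𝒟 ν 𝒰 X z * clS 𝒟 ν 𝒰 X w := by
  change mk 𝒟 ν 𝒰 _ = mk 𝒟 ν 𝒰 _ * mk 𝒟 ν 𝒰 _
  rw [mk_mul]
  apply mk_eq
  filter_upwards [h𝒰 X] with i hX
  rw [W.cl_mul, Spl.gmul_zero (𝒟.wt (ν i) X).mul (𝒟.cl_mem hX z) (𝒟.cl_mem hX w)]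

omit h𝒰 in
lemma germ_rat (q : ℚ) : ((q : ℚ) : KS W 𝒰) =
    (((fun _ => ((q : ℚ) : W.K) : ℕ → W.K) : Germ _ W.K) : KS W 𝒰) := by
  let c : W.K →+* KS W 𝒰 :=
    { toFun := fun x => (((fun _ => x : ℕ → W.K) : Germ _ W.K) : KS W 𝒰)
      map_one' := rfl
      map_mul' := fun _ _ => rfl
      map_zero' := rfl
      map_add' := fun _ _ => rfl }
  exact (map_ratCast c q).symm

omit h𝒰 in
variable (𝒟) in
/-- Pull-back in the limit theory. -/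
noncomputable def mapS (h𝒰 : ∀ V, ∀ᶠ i in (𝒰 : Filter ℕ), Dom W (ν i) V) {X Y : 𝒱.Obj}
    (f : X ⟶ Y) : HS 𝒟 ν 𝒰 Y →ₐ[KS W 𝒰] HS 𝒟 ν 𝒰 X :=
  AlgHom.ofLinearMap (mapL 𝒟 ν 𝒰 f) (mapL_one h𝒰 f) (mapL_mul h𝒰 f)

omit h𝒰 in
variable (𝒟) in
/-- The data of the limit theory. -/
noncomputable def dataS (h𝒰 : ∀ V, ∀ᶠ i in (𝒰 : Filter ℕ), Dom W (ν i) V) :
    WeilData.{u, v} 𝒱 where
  K := KS W 𝒰
  H := HS 𝒟 ν 𝒰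
  gr := grS 𝒟 ν 𝒰
  map := mapS 𝒟 h𝒰
  tr := trS 𝒟 ν 𝒰
  push := pushL 𝒟 ν 𝒰
  cl := clS 𝒟 ν 𝒰

lemma functorialS : IsFunctorial (dataS 𝒟 h𝒰) where
  map_id X := by
    apply AlgHom.ext
    intro a
    change mapL 𝒟 ν 𝒰 (𝟙 X) a = a
    induction a using mk_ind with | h a =>
    rw [mapL, opS_mk]
    apply mk_eq
    refine Eventually.of_forall fun i => ?_
    have h1 : (W.map (𝟙 X)).toLinearMap = LinearMap.id := by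
      rw [W.isFunctorial.map_id]
      rfl
    rw [h1, Spl.grL_id]
    rfl
  map_comp {X Y Z} f g := by
    apply AlgHom.ext
    intro a
    change mapL 𝒟 ν 𝒰 (f ≫ g) a = mapL 𝒟 ν 𝒰 f (mapL 𝒟 ν 𝒰 g a)
    induction a using mk_ind with | h a =>
    rw [mapL, mapL, mapL, opS_mk, opS_mk, opS_mk]
    apply mk_eq
    filter_upwards [h𝒰 X, h𝒰 Y, h𝒰 Z] with i hX hY hZ
    have h1 : (W.map (f ≫ g)).toLinearMap = (W.map f).toLinearMap ∘ₗ (W.map g).toLinearMap := by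
      rw [W.isFunctorial.map_comp]
      rfl
    rw [h1, Spl.grL_comp (𝒟.filt_map hX hY f) (𝒟.filt_map hY hZ g)]
    rfl
  isPullPush {X Y} f :=
    { map_mem := by
        rintro i _ ⟨b, hb, rfl⟩
        exact ⟨_, fun l => Spl.grL_mem (fun s x hx => (𝒟.wt (ν l) Y).hom s i x hx)
          (fun s x hx => (𝒟.wt (ν l) X).hom s i x hx) (fun x hx => W.map_mem f hx) (hb l), rfl⟩
      tr_push := fun a b => trS_push (𝒟 := 𝒟) h𝒰 f a b }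

omit h𝒰 in
lemma finrankS (V : 𝒱.Obj) :
    Module.finrank (KS W 𝒰) (HS 𝒟 ν 𝒰 V) = Module.finrank W.K (W.H V) :=
  finrank_germ (K := W.K) (A := W.H V) 𝒰

lemma kunnethS (X Y : 𝒱.Obj) : IsKunneth (mapS 𝒟 h𝒰 (fst X Y)) (mapS 𝒟 h𝒰 (snd X Y))
    (trS 𝒟 ν 𝒰 X) (trS 𝒟 ν 𝒰 Y) (trS 𝒟 ν 𝒰 (X.prod Y)) := by
  have htr : ∀ (a : HS 𝒟 ν 𝒰 X) (b : HS 𝒟 ν 𝒰 Y), trS 𝒟 ν 𝒰 (X.prod Y)
      (mapS 𝒟 h𝒰 (fst X Y) a * mapS 𝒟 h𝒰 (snd X Y) b) = trS 𝒟 ν 𝒰 X a * trS 𝒟 ν 𝒰 Y b := by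
    intro a b
    change trS 𝒟 ν 𝒰 (X.prod Y) (mapL 𝒟 ν 𝒰 (fst X Y) a * mapL 𝒟 ν 𝒰 (snd X Y) b) = _
    induction a using mk_ind with | h a =>
    induction b using mk_ind with | h b =>
    rw [mapL, mapL, opS_mk, opS_mk, mk_mul, trS_mk, trS_mk, trS_mk]
    change _ = (((fun i => W.tr X ((𝒟.D (ν i) X).P 0 (a i)) * W.tr Y ((𝒟.D (ν i) Y).P 0 (b i)) :
      ℕ → W.K) : Germ _ W.K) : KS W 𝒰)
    apply germ_eq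
    filter_upwards [h𝒰 X, h𝒰 Y, h𝒰 (X.prod Y)] with i hX hY hXY
    exact Spl.tr_ext (𝒟.wt (ν i) X) (𝒟.wt (ν i) Y) (𝒟.wt (ν i) (X.prod Y)) (𝒟.filt_map hXY hX (fst X Y))
      (𝒟.filt_map hXY hY (snd X Y)) (fun a b => W.tr_prod a b) (a i) (b i)
  refine ⟨?_, htr⟩
  refine kunneth_of_finrank (trA := trS 𝒟 ν 𝒰 X) (trB := trS 𝒟 ν 𝒰 Y) (trC := trS 𝒟 ν 𝒰 (X.prod Y))
    (poincareS X).nondeg (poincareS Y).nondeg htr ?_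
  rw [finrankS, finrankS, finrankS, ← Module.finrank_tensorProduct]
  exact (LinearEquiv.ofBijective _ (W.kunneth X Y)).finrank_eq.symm

lemma cycleMapS (X : 𝒱.Obj) : IsCycleMap X.V (grS 𝒟 ν 𝒰 X) (trS 𝒟 ν 𝒰 X) (clS 𝒟 ν 𝒰 X) where
  cl_mem {p z} hz := ⟨_, fun i => (𝒟.wt (ν i) X).hom 0 (2 * p) _ (W.cl_mem hz), rfl⟩
  cl_fund := by
    change mk 𝒟 ν 𝒰 _ = mk 𝒟 ν 𝒰 _
    apply mk_eq
    refine Eventually.of_forall fun i => ?_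
    rw [W.cl_fund, (𝒟.wt (ν i) X).P_one (W.gr_zero X) (W.one_mem X)]
  tr_cl {z} hz := by
    change trS 𝒟 ν 𝒰 X (mk 𝒟 ν 𝒰 _) = _
    rw [trS_mk, germ_rat]
    apply germ_eq
    filter_upwards [h𝒰 X] with i hX
    rw [(𝒟.D (ν i) X).P_P, (𝒟.wt (ν i) X).tr_lead (𝒟.cl_mem hX z), W.tr_cl hz]

lemma compatibleS : IsCompatible ops (dataS 𝒟 h𝒰) where
  cl_mul {X} z w := clS_mul (𝒟 := 𝒟) h𝒰 z w
  cl_pull {X Y} f z := by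
    change mk 𝒟 ν 𝒰 _ = mapL 𝒟 ν 𝒰 f (mk 𝒟 ν 𝒰 _)
    rw [mapL, opS_mk]
    apply mk_eq
    filter_upwards [h𝒰 X, h𝒰 Y] with i hX hY
    rw [W.cl_pull, Spl.grL_zero (𝒟.filt_map hX hY f) (𝒟.cl_mem hY z)]
    rfl
  cl_push {X Y} f z := by
    change mk 𝒟 ν 𝒰 _ = pushL 𝒟 ν 𝒰 f (mk 𝒟 ν 𝒰 _)
    rw [pushL, opS_mk]
    apply mk_eq
    filter_upwards [h𝒰 X, h𝒰 Y] with i hX hY
    rw [W.cl_push, Spl.grL_zero (𝒟.filt_push hX hY f) (𝒟.cl_mem hX z)]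

omit h𝒰 in
variable (𝒟) in
/-- **The limit theory.** -/
noncomputable def star (h𝒰 : ∀ V, ∀ᶠ i in (𝒰 : Filter ℕ), Dom W (ν i) V) :
    WeilCohomology.{u, v} ops where
  toWeilData := dataS 𝒟 h𝒰
  isPoincareAlgebra := fun X => poincareS (𝒟 := 𝒟) (𝒰 := 𝒰) X
  isFunctorial := functorialS h𝒰
  isKunneth := kunnethS (𝒟 := 𝒟) h𝒰
  isCycleMap := cycleMapS (𝒟 := 𝒟) h𝒰
  isCompatible := compatibleS h𝒰

/-- The limit theory has the same Betti numbers. -/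
lemma betti_star (X : 𝒱.Obj) (i : ℕ) : (star 𝒟 h𝒰).betti X i = W.betti X i :=
  finrank_gsub 𝒰 (W.gr X i)

/-- In the limit theory, homological and numerical equivalence coincide. -/
lemma homEqNum_star (X : 𝒱.Obj) : HomEqNum (star 𝒟 h𝒰) X := by
  intro j _ z hz hnum
  change mk 𝒟 ν 𝒰 (fun i => (𝒟.D (ν i) X).P 0 (W.cl X z)) = mk 𝒟 ν 𝒰 (fun _ => 0)
  apply mk_eq
  filter_upwards [h𝒰 X] with i hX
  have h1 : W.cl X z ∈ spanCycles W X j := Submodule.subset_span ⟨j, rfl, z, hz, rfl⟩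
  obtain ⟨s, hs, h2⟩ := (𝒟.num (ν i) X hX j _ h1).2.1
    (numZero_iff.2 (numTriv_of_deg (W := W) hz hnum))
  exact h2 0 hs

end Pool.Agent.H844.Num
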