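import Pool.Agent.H844.Num.Sgn
import Pool.Agent.H844.Num.Gm
import Pool.Agent.H844.Num.Lim2
import Pool.Agent.H844.Car.Bri

/-!
# Cartan involutions of the cycles modulo numerical equivalence
-/

open CategoryTheory AlgebraicGeometry Function Filter

universe u v

set_option linter.unusedSectionVars false

namespace Pool.Agent.H844.Num

open Pool.Agent.H914 Pool.Agent.H914.VarClass Pool.Agent.H914.VarClass.Obj
  Pool.Agent.H914.WeilCohomology Pool.Agent.Y133.Half Pool.Agent.Q55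
open Pool.Agent.R908 Pool.Agent.N180.Cf Pool.Agent.H843.Ex Pool.Agent.W537

variable {k : Type u} [Field k] {𝒱 : VarClass k} {ops : CycleOps 𝒱}

section One

variable {W : WeilCohomology.{u, v} ops} {Y : 𝒱.Obj}

lemma cl_eq_zero_iff (h : HomEqNum W Y) {p : ℕ} {z : Y.Cycles} (hz : Y.IsCyc p z) :
    W.cl Y z = 0 ↔ NumZero ops Y p z := by
  constructor
  · intro h0 q w hpq hw
    have h1 : Y.IsCyc Y.dim (ops.mul z w) := by
      rw [← hpq]
      exact ops.mul_mem hz hw
    have h2 := W.tr_cl h1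
    rw [W.cl_mul, h0, zero_mul, map_zero] at h2
    exact_mod_cast h2.symm
  · intro h0
    rcases Nat.lt_or_ge Y.dim p with hp | hp
    · have h1 := W.cl_mem hz
      rw [W.gr_eq_bot Y _ (by omega), Submodule.mem_bot] at h1
      exact h1
    · exact h p hp z hz fun w hw => h0 _ w (by omega) hw

lemma hodgeType_iff {E : Y.Cycles} (hE : Y.IsCyc 1 E) (h : HomEqNum W Y) :
    HodgeType W Y E ↔ NumHodge ops Y E := by
  have h1 : ∀ j, 2 * j ≤ Y.dim → ∀ z, Y.IsCyc j z →
      (W.cl Y (divPow ops E (Y.dim - 2 * j + 1) z) = 0 ↔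
        NumZero ops Y (Y.dim - j + 1) (divPow ops E (Y.dim - 2 * j + 1) z)) := by
    intro j hj z hz
    have h2 := divPow_mem (ops := ops) hE (Y.dim - 2 * j + 1) hz
    rw [show j + (Y.dim - 2 * j + 1) = Y.dim - j + 1 by omega] at h2
    exact cl_eq_zero_iff h h2
  constructor
  · intro H j hj z hz hp hne
    exact H j hj z hz ((h1 j hj z hz).2 hp) fun h0 => hne ((cl_eq_zero_iff h hz).1 h0)
  · intro H j hj z hz hp hne
    exact H j hj z hz ((h1 j hj z hz).1 hp) fun h0 => hne ((cl_eq_zero_iff h hz).2 h0)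

lemma pwDiv_cyc {X : 𝒱.Obj} {D : X.Cycles} (hD : X.IsCyc 1 D) (n : ℕ) :
    (pw X n).IsCyc 1 (pwDiv ops D n) := by
  induction n with
  | zero => exact hD
  | succ n ih => exact (ops.pull_mem _ ih).add (ops.pull_mem _ hD)

end One

variable {X P : 𝒱.Obj} {D : X.Cycles}

/-- **The limit theory on the products of copies of a variety.** -/
theorem exists_lim (W : WeilCohomology.{u, 0} ops) (hC : Nonempty (ℂ ≃+* W.K))
    (hP : P.dim = 0) (hD : X.IsCyc 1 D)
    (hdeg : 0 < X.V.degCycle (divPow ops D X.dim X.V.fundCycle))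
    (hHL : HardLefschetz W X D) (hB : LefschetzB W X D) :
    ∃ W' : WeilCohomology.{u, 0} (onProducts ops X P), Nonempty (ℂ ≃+* W'.K) ∧
      (∀ Y, HomEqNum W' Y) ∧ (∀ Y i, W'.betti Y i = W.betti (up Y) i) ∧
      HardLefschetz W' (self X P) D := by
  set V := res W X P with hV
  have hHL' : HardLefschetz V (self X P) D := res_hardLefschetz hHL
  have hB' : LefschetzB V (self X P) D := res_lefschetzB hB
  have hinv : ∀ i ≤ (self X P).dim, ∃ z, InvertsLefschetz V (self X P) D i z :=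
    fun i hi => inverts_of_lefschetzB (X := self X P) hD hHL' hB' hi
  have hsign : ∀ Y, SignOpAlgebraic V Y := fun Y =>
    obj_ind (p := fun Y => SignOpAlgebraic V Y) (sign_of_inverts (X := self X P) hD hinv)
      (sign_point (P := pt X P) hP) (fun Y Z => sign_prod) Y
  have hdegX : ∃ z, X.IsCyc X.dim z ∧ X.V.degCycle z ≠ 0 := by
    refine ⟨_, ?_, hdeg.ne'⟩
    have h1 := divPow_mem (ops := ops) hD X.dim X.V.fundCycle_mem
    rwa [zero_add] at h1
  have hdegA : ∀ Y : (products X.V P.V).Obj, ∃ z, Y.IsCyc Y.dim z ∧ Y.V.degCycle z ≠ 0 :=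
    fun Y => obj_ind (p := fun Y => ∃ z, Y.IsCyc Y.dim z ∧ Y.V.degCycle z ≠ 0) hdegX
      (deg_point (P := pt X P) hP) (fun Y Z => deg_prod V) Y
  obtain ⟨𝒟⟩ := exists_sys V hsign (P := pt X P) hP
  have h𝒰 := eventually_dom V hdegA
  refine ⟨star 𝒟 h𝒰, nonempty_equiv_germ _ hC, fun Y => homEqNum_star h𝒰 Y,
    fun Y i => betti_star h𝒰 Y i, ?_⟩
  obtain ⟨Λ, hΛ⟩ := Pool.Agent.W537.oneCycle (X := self X P) hD le_rfl V hinv
  have h1 := ((hΛ (star 𝒟 h𝒰)).out 0 3).1 (fun i _ => betti_star h𝒰 (self X P) i)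
  rw [hardLefschetz_iff (X := self X P) hD]
  intro i hi
  obtain ⟨z, hz⟩ := h1 i hi
  exact lefschetzIn_of_inverts (X := self X P) hD hi hz

open Pool.Agent.H844.Cartan

/-- **Cartan involutions of the cycles modulo numerical equivalence.** -/
theorem main (W : WeilCohomology.{u, 0} ops) (hC : Nonempty (ℂ ≃+* W.K))
    (hP : P.dim = 0) (hD : X.IsCyc 1 D)
    (hdeg : 0 < X.V.degCycle (divPow ops D X.dim X.V.fundCycle))
    (hHL : HardLefschetz W X D) (hB : LefschetzB W X D) :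
    (∃ (W' : WeilCohomology.{u, 0} (onProducts ops X P)) (σ : ℂ ≃+* W'.K),
      (∀ Y, HomEqNum W' Y) ∧ (∀ Y i, W'.betti Y i = W.betti (up Y) i) ∧
      HardLefschetz W' (self X P) D ∧ (∃ t, IsCartan W' σ (self X P) D t) ∧
      ∀ t, IsCartan W' σ (self X P) D t → ∀ n, (NumHodge ops (pw X n) (pwDiv ops D n) ↔
        ∀ j x, IsRealAlg W' σ (pw (self X P) n) j x → t n x = x)) ∧
      ∃ N, NumHodge ops (pw X N) (pwDiv ops D N) →
        ∀ n, NumHodge ops (pw X n) (pwDiv ops D n) := by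
  obtain ⟨W', ⟨σ⟩, hnum, hbet, hHL'⟩ := exists_lim W hC hP hD hdeg hHL hB
  obtain ⟨h1, h2, N, h3⟩ := Cartan.main (W := W') (X := self X P) (D := D) σ hD hdeg hHL'
    fun n => hnum _
  have h4 : ∀ n, HodgeType W' (pw (self X P) n) (pwDiv (onProducts ops X P) (X := self X P) D n) ↔
      NumHodge ops (pw X n) (pwDiv ops D n) := fun n =>
    (hodgeType_iff (pwDiv_cyc (X := self X P) hD n) (hnum _)).trans (numHodge_up ops P D n)
  refine ⟨⟨W', σ, hnum, hbet, hHL', h1, fun t ht n => ?_⟩, N, fun h n => ?_⟩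
  · rw [← h4 n]
    exact h2 t ht n
  · rw [← h4 n]
    exact h3 ((h4 N).2 h) n

end Pool.Agent.H844.Num
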