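import Pool.Agent.H844.Num.ClsDefs
import Pool.Agent.H843.Ex12
import Pool.Graph.R_seed8.H914R2.HodgeDefs

/-!
# The restriction of a Weil cohomology theory to the products of copies of two varieties
-/

open CategoryTheory AlgebraicGeometry Function Filter

universe u v

set_option linter.unusedSectionVars false

namespace Pool.Agent.H844.Num

open Pool.Agent.H914 Pool.Agent.H914.VarClass Pool.Agent.H914.VarClass.Obj
  Pool.Agent.H914.WeilCohomology Pool.Agent.Y133.Half Pool.Agent.Q55
open Pool.Agent.R908 Pool.Agent.N180.Cf Pool.Agent.H843.Ex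

variable {k : Type u} [Field k] {𝒱 : VarClass k} {ops : CycleOps 𝒱} {X P : 𝒱.Obj}

/-- The data of the restricted theory. -/
noncomputable def resData (W : WeilCohomology.{u, v} ops) (X P : 𝒱.Obj) :
    WeilData.{u, v} (products X.V P.V) where
  K := W.K
  H Y := W.H (up Y)
  gr Y := W.gr (up Y)
  map {Y Z} f := W.map (X := up Y) (Y := up Z) f
  tr Y := W.tr (up Y)
  push {Y Z} f := W.push (X := up Y) (Y := up Z) f
  cl Y := W.cl (up Y)

/-- The restricted theory. -/
noncomputable def res (W : WeilCohomology.{u, v} ops) (X P : 𝒱.Obj) :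
    WeilCohomology.{u, v} (onProducts ops X P) where
  toWeilData := resData W X P
  isPoincareAlgebra Y := W.isPoincareAlgebra (up Y)
  isFunctorial :=
    { map_id := fun Y => W.isFunctorial.map_id (up Y)
      map_comp := fun {Y Z T} f g => W.isFunctorial.map_comp (X := up Y) (Y := up Z) (Z := up T) f g
      isPullPush := fun {Y Z} f => W.isFunctorial.isPullPush (X := up Y) (Y := up Z) f }
  isKunneth Y Z := W.isKunneth (up Y) (up Z)
  isCycleMap Y := W.isCycleMap (up Y)
  isCompatible :=
    { cl_mul := fun {Y} z w => W.isCompatible.cl_mul (X := up Y) z w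
      cl_pull := fun {Y Z} f z => W.isCompatible.cl_pull (X := up Y) (Y := up Z) f z
      cl_push := fun {Y Z} f z => W.isCompatible.cl_push (X := up Y) (Y := up Z) f z }

variable {W : WeilCohomology.{u, v} ops}

lemma res_hardLefschetz {D : X.Cycles} (h : HardLefschetz W X D) :
    HardLefschetz (res W X P) (self X P) D := h

lemma res_lefschetzB {D : X.Cycles} (h : LefschetzB W X D) :
    LefschetzB (res W X P) (self X P) D := h

/-- The powers, in the restricted class. -/
lemma up_pw (ops : CycleOps 𝒱) (P : 𝒱.Obj) (D : X.Cycles) (n : ℕ) :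
    (⟨up (pw (self X P) n), pwDiv (onProducts ops X P) (X := self X P) D n⟩ :
      Σ Y : 𝒱.Obj, Y.Cycles) = ⟨pw X n, pwDiv ops D n⟩ := by
  induction n with
  | zero => rfl
  | succ n ih =>
    have key : ∀ a b : Σ Y : 𝒱.Obj, Y.Cycles, a = b →
        (⟨a.1.prod X, ops.pull (fst a.1 X) a.2 + ops.pull (snd a.1 X) D⟩ :
          Σ Y : 𝒱.Obj, Y.Cycles) = ⟨b.1.prod X, ops.pull (fst b.1 X) b.2 +
            ops.pull (snd b.1 X) D⟩ := by
      rintro a _ rfl
      rfl
    exact key _ _ ih

lemma numHodge_up (ops : CycleOps 𝒱) (P : 𝒱.Obj) (D : X.Cycles) (n : ℕ) :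
    NumHodge (onProducts ops X P) (pw (self X P) n)
      (pwDiv (onProducts ops X P) (X := self X P) D n) ↔ NumHodge ops (pw X n) (pwDiv ops D n) := by
  have h1 : NumHodge (onProducts ops X P) (pw (self X P) n)
      (pwDiv (onProducts ops X P) (X := self X P) D n) ↔
      NumHodge ops (up (pw (self X P) n))
        (pwDiv (onProducts ops X P) (X := self X P) D n) := Iff.rfl
  rw [h1]
  have h2 := up_pw ops P D n
  have key : ∀ a b : Σ Y : 𝒱.Obj, Y.Cycles, a = b → (NumHodge ops a.1 a.2 ↔
      NumHodge ops b.1 b.2) := by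
    rintro a _ rfl
    rfl
  exact key _ _ h2

end Pool.Agent.H844.Num
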