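import Pool.Graph.R_pool_sql_team_seeded_3997aac3.Q55.ZeroOneDefs

/-!
# The products of copies of two varieties, and the numerical conjecture of Hodge type: definitions
-/

open CategoryTheory AlgebraicGeometry

universe u v

namespace Pool.Agent.H844.Num

open Pool.Agent.H914 Pool.Agent.H914.VarClass Pool.Agent.H914.VarClass.Obj
  Pool.Agent.H914.WeilCohomology Pool.Agent.Y133.Half Pool.Agent.Q55

variable {k : Type u} [Field k]

/-- The iterated products of copies of the varieties `X` and `P`. -/
inductive IsProd (X P : SmVar k) : SmVar k → Prop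
  | left : IsProd X P X
  | right : IsProd X P P
  | prod {Y Z : SmVar k} : IsProd X P Y → IsProd X P Z → IsProd X P (Y.prod Z)

/-- The class of the iterated products of copies of the varieties `X` and `P`. -/
def products (X P : SmVar k) : VarClass k where
  mem := IsProd X P
  prod_mem := IsProd.prod

variable {𝒱 : VarClass k}

lemma mem_of_isProd {X P : 𝒱.Obj} {Y : SmVar k} (h : IsProd X.V P.V Y) : 𝒱.mem Y := by
  induction h with
  | left => exact X.mem
  | right => exact P.mem
  | prod _ _ h1 h2 => exact 𝒱.prod_mem h1 h2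

/-- A product of copies of `X` and `P`, as a variety of the class `𝒱`. -/
def up {X P : 𝒱.Obj} (Y : (products X.V P.V).Obj) : 𝒱.Obj := ⟨Y.V, mem_of_isProd Y.mem⟩

/-- The operations on cycles, for the products of copies of `X` and `P`. -/
def onProducts (ops : CycleOps 𝒱) (X P : 𝒱.Obj) : CycleOps (products X.V P.V) where
  mul {Y} z w := ops.mul (X := up Y) z w
  pull {Y Z} f z := ops.pull (X := up Y) (Y := up Z) f z
  push {Y Z} f z := ops.push (X := up Y) (Y := up Z) f z
  mul_mem {Y} := ops.mul_mem (X := up Y)
  pull_mem {Y Z} f := ops.pull_mem (X := up Y) (Y := up Z) f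
  push_mem {Y Z} f := ops.push_mem (X := up Y) (Y := up Z) f

/-- The variety `X`, as one of the products of copies of `X` and `P`. -/
def self (X P : 𝒱.Obj) : (products X.V P.V).Obj := ⟨X.V, IsProd.left⟩

/-- The cycle `z` of codimension `p` on `Y` is numerically equivalent to zero: its intersection
numbers with all cycles of the complementary codimension `q` vanish. -/
def NumZero (ops : CycleOps 𝒱) (Y : 𝒱.Obj) (p : ℕ) (z : Y.Cycles) : Prop :=
  ∀ q w, p + q = Y.dim → Y.IsCyc q w → Y.V.degCycle (ops.mul z w) = 0

/-- **The numerical standard conjecture of Hodge type** for `Y` and the divisor `E`: for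
`2 j ≤ d = dim Y` and every cycle `z` of codimension `j` such that `E ^ (d - 2 j + 1) · z` is
numerically equivalent to zero but `z` is not, the sign of the intersection number
`z · z · E ^ (d - 2 j)` is `(-1) ^ j`. -/
def NumHodge (ops : CycleOps 𝒱) (Y : 𝒱.Obj) (E : Y.Cycles) : Prop :=
  ∀ j, 2 * j ≤ Y.dim → ∀ z, Y.IsCyc j z →
    NumZero ops Y (Y.dim - j + 1) (divPow ops E (Y.dim - 2 * j + 1) z) → ¬ NumZero ops Y j z →
    0 < (-1 : ℚ) ^ j * Y.V.degCycle (ops.mul z (divPow ops E (Y.dim - 2 * j) z))

end Pool.Agent.H844.Num
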