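import Pool.Agent.H844.Num.Cls

/-!
# Products of copies of two varieties: signs, degrees and an enumeration
-/

open CategoryTheory AlgebraicGeometry Function Filter

universe u v

set_option linter.unusedSectionVars false

namespace Pool.Agent.H844.Num

open Pool.Agent.H914 Pool.Agent.H914.VarClass Pool.Agent.H914.VarClass.Obj
  Pool.Agent.H914.WeilCohomology Pool.Agent.Y133.Half Pool.Agent.Q55
open Pool.Agent.R908 Pool.Agent.N180.Cf Pool.Agent.H843.Ex

variable {k : Type u} [Field k] {𝒱 : VarClass k} {ops : CycleOps 𝒱}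
  {W : WeilCohomology.{u, v} ops}

lemma signOp_iff {Y : 𝒱.Obj} : SignOpAlgebraic W Y ↔
    ∃ κ ∈ KOp W Y Y 0, ∀ i, ∀ a ∈ W.gr Y i, κ a = (-1 : W.K) ^ i • a := by
  constructor
  · rintro ⟨_, ⟨γ, hγ, rfl⟩, hs⟩
    exact ⟨W.corr γ, mem_KOp_iff.2 ⟨γ, by rw [add_zero]; exact hγ, rfl⟩, hs⟩
  · rintro ⟨κ, hκ, hs⟩
    obtain ⟨γ, hγ, rfl⟩ := mem_KOp_iff.1 hκ
    rw [add_zero] at hγ
    exact ⟨_, ⟨γ, hγ, rfl⟩, hs⟩

lemma sign_point {P : 𝒱.Obj} (hP : P.dim = 0) : SignOpAlgebraic W P := by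
  rw [signOp_iff]
  refine ⟨LinearMap.id, KOp.id P, fun i a ha => ?_⟩
  by_cases hi : i = 0
  · rw [hi, pow_zero, one_smul]
    rfl
  · rw [W.gr_eq_bot P i (by rw [hP]; omega), Submodule.mem_bot] at ha
    rw [ha, map_zero, smul_zero]

lemma sign_prod {Y Z : 𝒱.Obj} (hY : SignOpAlgebraic W Y) (hZ : SignOpAlgebraic W Z) :
    SignOpAlgebraic W (Y.prod Z) := by
  rw [signOp_iff] at hY hZ ⊢
  obtain ⟨κ, hκ, hs⟩ := hY
  obtain ⟨l, hl, ht⟩ := hZ
  refine ⟨R908.extHom W κ l, KOp.cast (KOp.extHom hκ hl) (add_zero 0), ?_⟩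
  have key : R908.extHom W κ l = par (W.isInternal (Y.prod Z)) := by
    apply ext_kunneth_lin
    intro a b
    rw [extHom_tmul]
    refine gr_induction (W.isInternal Y) (p := fun a =>
      W.map (fst Y Z) (κ a) * W.map (snd Y Z) (l b) =
        par (W.isInternal (Y.prod Z)) (W.map (fst Y Z) a * W.map (snd Y Z) b)) ?_ ?_ a
    · intro i a ha
      refine gr_induction (W.isInternal Z) (p := fun b =>
        W.map (fst Y Z) (κ a) * W.map (snd Y Z) (l b) =
          par (W.isInternal (Y.prod Z)) (W.map (fst Y Z) a * W.map (snd Y Z) b)) ?_ ?_ b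
      · intro j b hb
        rw [hs i a ha, ht j b hb, par, scal_apply _ _ (W.mul_mem (W.map_mem _ ha)
          (W.map_mem _ hb)), map_smul, map_smul, smul_mul_smul_comm, ← pow_add]
      · intro b b' hb hb'
        rw [map_add, map_add, map_add, mul_add, mul_add, map_add, hb, hb']
    · intro a a' ha ha'
      rw [map_add, map_add, map_add, add_mul, add_mul, map_add, ha, ha']
  intro i a ha
  rw [key, par, scal_apply _ _ ha]

lemma deg_point {P : 𝒱.Obj} (hP : P.dim = 0) : ∃ z, P.IsCyc P.dim z ∧ P.V.degCycle z ≠ 0 := by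
  refine ⟨P.V.fundCycle, by rw [hP]; exact P.V.fundCycle_mem, ?_⟩
  have h2 : P.V.degCycle P.V.fundCycle = 1 := by
    unfold SmVar.degCycle SmVar.fundCycle
    exact Finsupp.sum_single_index rfl
  rw [h2]
  exact one_ne_zero

lemma deg_prod (W : WeilCohomology.{u, v} ops) {Y Z : 𝒱.Obj}
    (hY : ∃ z, Y.IsCyc Y.dim z ∧ Y.V.degCycle z ≠ 0)
    (hZ : ∃ z, Z.IsCyc Z.dim z ∧ Z.V.degCycle z ≠ 0) :
    ∃ z, (Y.prod Z).IsCyc (Y.prod Z).dim z ∧ (Y.prod Z).V.degCycle z ≠ 0 := by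
  obtain ⟨z, hz, hz'⟩ := hY
  obtain ⟨w, hw, hw'⟩ := hZ
  have h1 : (Y.prod Z).IsCyc (Y.prod Z).dim
      (ops.mul (ops.pull (fst Y Z) z) (ops.pull (snd Y Z) w)) := by
    rw [dim_prod]
    exact ops.mul_mem (ops.pull_mem _ hz) (ops.pull_mem _ hw)
  refine ⟨_, h1, ?_⟩
  have h2 := W.tr_cl h1
  rw [W.cl_mul, W.cl_pull, W.cl_pull, W.tr_prod, W.tr_cl hz, W.tr_cl hw] at h2
  intro h0
  rw [h0, Rat.cast_zero, ← Rat.cast_mul, Rat.cast_eq_zero] at h2
  exact mul_ne_zero hz' hw' h2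

/-! ### The products of copies of `X` and `P` -/

variable {X P : 𝒱.Obj}

/-- The second variety, as one of the products. -/
def pt (X P : 𝒱.Obj) : (products X.V P.V).Obj := ⟨P.V, IsProd.right⟩

lemma obj_ext {Y Z : (products X.V P.V).Obj} (h : Y.V = Z.V) : Y = Z := by
  cases Y
  cases Z
  subst h
  rfl

lemma obj_ind {p : (products X.V P.V).Obj → Prop} (h1 : p (self X P)) (h2 : p (pt X P))
    (h3 : ∀ Y Z, p Y → p Z → p (Y.prod Z)) (Y : (products X.V P.V).Obj) : p Y := by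
  have key : ∀ V, ∀ h : IsProd X.V P.V V, p ⟨V, h⟩ := by
    intro V h
    induction h with
    | left => exact h1
    | right => exact h2
    | prod h h' ih ih' => exact h3 ⟨_, h⟩ ⟨_, h'⟩ ih ih'
  exact key Y.V Y.mem

/-- An enumeration of the products. -/
noncomputable def en (X P : 𝒱.Obj) : ℕ → (products X.V P.V).Obj
  | 0 => self X P
  | 1 => pt X P
  | n + 2 =>
    have _h1 := Nat.unpair_left_le n
    have _h2 := Nat.unpair_right_le n
    (en X P (Nat.unpair n).1).prod (en X P (Nat.unpair n).2)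
termination_by n => n
decreasing_by all_goals omega

lemma en_surj (Y : (products X.V P.V).Obj) : ∃ n, en X P n = Y := by
  induction Y using obj_ind with
  | h1 => exact ⟨0, by rw [en]⟩
  | h2 => exact ⟨1, by rw [en]⟩
  | h3 Y Z hY hZ =>
    obtain ⟨m, rfl⟩ := hY
    obtain ⟨n, rfl⟩ := hZ
    refine ⟨Nat.pair m n + 2, ?_⟩
    rw [en]
    simp only [Nat.unpair_pair]

/-- A sequence of products which dominates all products. -/
noncomputable def seq (X P : 𝒱.Obj) : ℕ → (products X.V P.V).Obj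
  | 0 => en X P 0
  | n + 1 => (seq X P n).prod (en X P (n + 1))

variable {op : CycleOps (products X.V P.V)} (V : WeilCohomology.{u, v} op)
  (hdeg : ∀ Y : (products X.V P.V).Obj, ∃ z, Y.IsCyc Y.dim z ∧ Y.V.degCycle z ≠ 0)

include hdeg in
lemma dom_seq (m n : ℕ) (h : m ≤ n) : Dom V (seq X P n) (en X P m) := by
  induction n with
  | zero =>
    obtain rfl : m = 0 := Nat.le_zero.1 h
    exact ⟨𝟙 _, IsDominating.id _⟩
  | succ n ih =>
    rcases Nat.lt_or_ge n m with h' | h'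
    · obtain rfl : m = n + 1 := by omega
      exact ⟨snd _ _, dom_snd V (hdeg _)⟩
    · exact Dom.trans ⟨fst _ _, dom_fst V (hdeg _)⟩ (ih h')

include hdeg in
lemma eventually_dom (Y : (products X.V P.V).Obj) :
    ∀ᶠ i in ((hyperfilter ℕ : Ultrafilter ℕ) : Filter ℕ), Dom V (seq X P i) Y := by
  obtain ⟨m, rfl⟩ := en_surj Y
  have h1 : ∀ᶠ i in (atTop : Filter ℕ), Dom V (seq X P i) (en X P m) :=
    eventually_atTop.2 ⟨m, fun i hi => dom_seq V hdeg m i hi⟩
  rw [← Nat.cofinite_eq_atTop] at h1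
  exact hyperfilter_le_cofinite h1

end Pool.Agent.H844.Num
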